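import Pool.Agent.H360.KV.Step

/-!
# Pure braids of high order, with powers, and their closures
-/

set_option autoImplicit false

namespace Pool.Agent.H360.KV

open Finset LaurentPolynomial Matrix Pool.Agent.H891R2.Jones Pool.Agent.W639.RB Pool.Agent.Y463.SK
  Pool.Agent.Y463.MP Pool.Agent.Helper52_CV Pool.Agent.H360.JK Pool.Agent.Helper52_KV
  Pool.Agent.H835R2.Knot

/-! ### the words -/

/-- the commutator of the `P`-th power of `v` with its conjugate by `w` -/
def stp (P : ℕ) (w v : List (Letter 4)) : List (Letter 4) :=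
  (List.replicate P v).flatten ++ (w ++ (List.replicate P v).flatten ++ invW w) ++
    invW (List.replicate P v).flatten ++ invW (w ++ (List.replicate P v).flatten ++ invW w)

/-- `σ_1⁻¹ σ_0⁻¹ σ_1 σ_0⁻¹` -/
def w1 : List (Letter 4) := [(false, 1), (false, 0), (true, 1), (false, 0)]

/-- the family -/
def BN (N : ℕ) : ℕ → List (Letter 4)
  | 0 => stp N.factorial w1 (zN N)
  | j + 1 => stp N.factorial w1 (stp N.factorial b0 (BN N j))

/-! ### skein theory -/

theorem st_stp {c : ℤ[T;T⁻¹]} {v : List (Letter 4)} (h : Wk c v) (P : ℕ) (w : List (Letter 4)) :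
    St (c * c) (stp P w v) := Wk.comm (Wk.pow h P) ((Wk.pow h P).conj w)

theorem st_B (N j : ℕ) : St (mN N ^ (2 * 4 ^ j)) (BN N j) := by
  induction j with
  | zero =>
    have := st_stp (st_z N).wk N.factorial w1
    rw [← pow_two] at this
    exact this
  | succ j ih =>
    have := st_stp (st_stp ih.wk N.factorial b0).wk N.factorial w1
    rw [← pow_add, ← pow_add] at this
    have e : 2 * 4 ^ j + 2 * 4 ^ j + (2 * 4 ^ j + 2 * 4 ^ j) = 2 * 4 ^ (j + 1) := by ring
    rw [e] at this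
    exact this

/-! ### groups with series -/

theorem tv_stp {N t : ℕ} {v : List (Letter 4)} (h : ∀ s ≤ t, Tv N s v) (w : List (Letter 4)) :
    ∀ s ≤ t + 1, Tv N s (stp N.factorial w v) := by
  intro s hs
  rcases s with _ | s
  · exact tv_zero N _
  · exact (h s (by omega)).step dvd_rfl w

theorem tv_B (N j : ℕ) : ∀ s ≤ 2 * j + 1, Tv N s (BN N j) := by
  induction j with
  | zero =>
    have h : ∀ s ≤ 0, Tv N s (zN N) := by
      intro s hs
      obtain rfl : s = 0 := by omega
      exact tv_zero N _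
    exact tv_stp h w1
  | succ j ih => exact tv_stp (tv_stp ih b0) w1

/-! ### Vassiliev invariants -/

theorem sh_stp (p P : ℕ) (w v : List (Letter 4)) :
    shift p (toN (stp P w v)) = (List.replicate P (shift p (toN v))).flatten ++
      (shift p (toN w) ++ (List.replicate P (shift p (toN v))).flatten ++
        Pool.Agent.Y466.FT.inv (shift p (toN w))) ++
      Pool.Agent.Y466.FT.inv (List.replicate P (shift p (toN v))).flatten ++
      Pool.Agent.Y466.FT.inv (shift p (toN w) ++ (List.replicate P (shift p (toN v))).flatten ++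
        Pool.Agent.Y466.FT.inv (shift p (toN w))) := by
  have hi : ∀ u : List (Letter 4), shift p (toN (invW u)) =
      Pool.Agent.Y466.FT.inv (shift p (toN u)) := by
    intro u
    rw [toN_inv, ← shift_inv]
    rfl
  have hf : shift p (toN (List.replicate P v).flatten) =
      (List.replicate P (shift p (toN v))).flatten := by
    rw [toN_flatten', shift_flatten]
  unfold stp
  rw [toN_append, toN_append, toN_append, shift_append, shift_append, shift_append, hi, hi,
    toN_append, toN_append, shift_append, shift_append, hi, hf]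

theorem dw_stp {p i : ℕ} {v : List (Letter 4)} (h : DW i (shift p (toN v))) (P : ℕ)
    (w : List (Letter 4)) : DW (i + i) (shift p (toN (stp P w v))) := by
  rw [sh_stp]
  exact (h.pow P).comm ((h.pow P).conj _)

theorem dw_B (N p j : ℕ) : DW (j + 1) (shift p (toN (BN N j))) := by
  induction j with
  | zero => exact DW.of_pure (IsPure.shift (st_B N 0).perm p)
  | succ j ih => exact (dw_stp (dw_stp ih _ b0) _ w1).mono (by omega)

theorem ins_B {n N p j : ℕ} (hj : n ≤ j) {x y : Word} (h : IsKnot (x ++ y))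
    (hp : p + 4 ≤ (run x Front.empty).n) :
    IsKnot (x ++ sliced p (BN N j) ++ y) ∧ ∀ (A : Type) [AddCommGroup A] (z : Word → A),
      IsInvariant z → DegreeLE n z → z (x ++ sliced p (BN N j) ++ y) = z (x ++ y) := by
  rw [sliced_eq]
  refine ins' ((dw_B N p j).mono (by omega)) ?_ h
  intro l hl
  exact lt_of_lt_of_le (shift_lt (toN_lt _) l hl) hp

/-! ### residues -/

theorem rr_w1 : RR 6 2 !![1, 6, 0; 1, 6, 0; 0, 0, 0] !![6, 1, 1; 6, 1, 1; 0, 0, 1] (toN w1) := by
  refine ⟨?_, ?_⟩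
  · have h := res_word (toN w1) 10 4 (by decide +kernel) (a := 1)
      (b := 1) (c := 0) (a' := 6) (b' := 6) (c' := 0) (a'' := 0) (b'' := 0) (c'' := 0)
      (by decide +kernel)
    norm_num at h
    exact h
  · have h := res_word (invL (toN w1)) 6 4 (by decide +kernel) (a := 6)
      (b := 6) (c := 0) (a' := 1) (b' := 1) (c' := 0) (a'' := 1) (b'' := 1) (c'' := 1)
      (by decide +kernel)
    norm_num at h
    exact h

theorem rr_b0 : RR (-1) 1 !![0, 0, 6; 1, 0, 6; 0, 1, 6] !![6, 1, 0; 6, 0, 1; 6, 0, 0]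
    (toN b0) := by
  refine ⟨res_b0, ?_⟩
  have h := res_word (invL (toN b0)) 9 8 (by decide +kernel) (a := 6)
    (b := 6) (c := 6) (a' := 1) (b' := 0) (c' := 0) (a'' := 0) (b'' := 1) (c'' := 0)
    (by decide +kernel)
  norm_num at h
  exact h

theorem pr_z (N : ℕ) (hN : 1 ≤ N) :
    PR (4808 + 72 * N) ![1, 0, 0] ![2, 0, 5] ![0, 1, 0] ![0, 2, 6] (toN (zN N)) :=
  ⟨1, 1, one_ne_zero, one_ne_zero, (rr_z N hN).cg rfl rfl (by decide +kernel) (by decide +kernel) rfl⟩

theorem toN_stp (P : ℕ) (w v : List (Letter 4)) :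
    toN (stp P w v) = cmL (List.replicate P (toN v)).flatten
      (toN w ++ (List.replicate P (toN v)).flatten ++ invL (toN w)) := by
  unfold stp cmL
  rw [toN_append, toN_append, toN_append, toN_inv, toN_inv, toN_append, toN_append, toN_flatten',
    toN_inv]

theorem PR.stp {e d d' : ℤ} {a φ a' φ' : Fin 3 → ZMod 7} {C C' : M7} {v w : List (Letter 4)}
    (h : PR e a φ a' φ' (toN v)) (hw : RR d d' C C' (toN w)) (h1 : φ ⬝ᵥ a ≠ 0)
    (h2 : φ' ⬝ᵥ a' ≠ 0) (hc : Cond a φ a' φ' C C') {P : ℕ} (hP : 1 ≤ P) :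
    PR (4 * (P * e) + 2 * (d + d')) a (φ' ᵥ* C') (C *ᵥ a) φ' (toN (stp P w v)) := by
  rw [toN_stp]
  exact (h.pow h1 h2 hP).step hw hc

/-- the exponents -/
def eB (N : ℕ) : ℕ → ℤ
  | 0 => 4 * (N.factorial * (4808 + 72 * N)) + 2 * (6 + 2)
  | j + 1 => 4 * (N.factorial * (4 * (N.factorial * eB N j) + 2 * (-1 + 1))) + 2 * (6 + 2)

theorem PR.cg {e e' : ℤ} {a φ a' φ' b ψ b' ψ' : Fin 3 → ZMod 7} {v : List (Bool × ℕ)}
    (h : PR e a φ a' φ' v) (h0 : e = e') (h1 : a = b) (h2 : φ = ψ) (h3 : a' = b') (h4 : φ' = ψ') :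
    PR e' b ψ b' ψ' v := by subst h0 h1 h2 h3 h4; exact h

instance (a φ a' φ' : Fin 3 → ZMod 7) (C C' : M7) : Decidable (Cond a φ a' φ' C C') := by
  unfold Cond; infer_instance

theorem pr_B (N : ℕ) (hN : 1 ≤ N) (j : ℕ) :
    PR (eB N j) ![1, 0, 0] ![5, 2, 1] ![1, 1, 0] ![0, 2, 6] (toN (BN N j)) := by
  have hP : 1 ≤ N.factorial := Nat.factorial_pos N
  induction j with
  | zero =>
    exact ((pr_z N hN).stp rr_w1 (by decide +kernel) (by decide +kernel) (by decide +kernel) hP).cg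
      rfl rfl (by decide +kernel) (by decide +kernel) rfl
  | succ j ih =>
    have h1 : PR (4 * (N.factorial * eB N j) + 2 * (-1 + 1)) ![1, 0, 0] ![6, 0, 2] ![0, 1, 0]
        ![0, 2, 6] (toN (H360.KV.stp N.factorial b0 (BN N j))) :=
      (ih.stp rr_b0 (by decide +kernel) (by decide +kernel) (by decide +kernel) hP).cg
        rfl rfl (by decide +kernel) (by decide +kernel) rfl
    exact (h1.stp rr_w1 (by decide +kernel) (by decide +kernel) (by decide +kernel) hP).cg
      rfl rfl (by decide +kernel) (by decide +kernel) rfl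

theorem eB_pos (N j : ℕ) : 0 < eB N j := by
  induction j with
  | zero => rw [eB]; positivity
  | succ j ih => rw [eB]; norm_num; positivity

theorem eB_mono (N : ℕ) : StrictMono (eB N) := by
  refine strictMono_nat_of_lt_succ fun j => ?_
  have h := eB_pos N j
  have hP : (1 : ℤ) ≤ N.factorial := by exact_mod_cast Nat.factorial_pos N
  rw [eB]
  have h1 : eB N j ≤ N.factorial * eB N j := le_mul_of_one_le_left h.le hP
  have h2 : N.factorial * eB N j ≤ N.factorial * (N.factorial * eB N j) :=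
    le_mul_of_one_le_left (by positivity) hP
  have e : 4 * ((N.factorial : ℤ) * (4 * (N.factorial * eB N j) + 2 * (-1 + 1))) + 2 * (6 + 2) =
    16 * ((N.factorial : ℤ) * (N.factorial * eB N j)) + 16 := by ring
  rw [e]
  linarith

/-! ### the small representations -/

section small

variable {R : Type*} [CommRing R] {A A' : R}

theorem r2_flat (n : ℕ) (w : List (Bool × ℕ)) (h : r2 A A' w = 1) :
    r2 A A' (List.replicate n w).flatten = 1 := by
  induction n with
  | zero => simp [r2, Pool.Agent.Y463.SK.wd]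
  | succ n ih => rw [List.replicate_succ, List.flatten_cons, r2_append, h, ih, one_mul]

theorem r2_stp (h : A * A' = 1) (P : ℕ) (w v : List (Letter 4)) (hv : r2 A A' (toN v) = 1) :
    r2 A A' (toN (stp P w v)) = 1 := by
  rw [toN_stp]
  exact r2_cm h _ _ (Or.inl (r2_flat _ _ hv))

theorem r2_B (h : A * A' = 1) (N j : ℕ) : r2 A A' (toN (BN N j)) = 1 := by
  have hz : r2 A A' (toN (zN N)) = 1 := r2_cm' h _ _ (r2_cm' h _ _ (r2_x h))
  induction j with
  | zero => exact r2_stp h _ _ _ hz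
  | succ j ih => exact r2_stp h _ _ _ (r2_stp h _ _ _ ih)

theorem r1_B (h : A * A' = 1) (N j : ℕ) : r1 A A' (toN (BN N j)) = 1 := by
  cases j <;> rw [BN, toN_stp] <;> exact r1_cm h _ _

end small

/-! ### the Jones polynomials -/

theorem trace_smul_ne (s : ZMod 7) (hs : s ≠ 0) :
    ((!![0, 0, 6; 1, 0, 6; 0, 1, 6] : M7) * (s • vecMulVec ![1, 0, 0] ![5, 2, 1])).trace ≠ 0 := by
  rw [mul_smul_comm, Matrix.trace_smul, smul_eq_mul]
  exact mul_ne_zero hs (by decide +kernel)

theorem trace_ne'' (N : ℕ) (hN : 1 ≤ N) {i j : ℕ} (hij : i < j) :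
    F4 (zz (b0 ++ BN N i)) ≠ F4 (zz (b0 ++ BN N j)) := by
  intro h
  have key : ∀ i, e7 (dl * F4 (zz (b0 ++ BN N i))) =
      e7 (dl ^ 4 - 3 * dl ^ 2 + 1) * e7 (r1 (T 1 : ℤ[T;T⁻¹]) (T (-1)) (toN b0)) +
      e7 (dl ^ 2 - 1) * (q3 (toN b0) * q3 (toN (BN N i))).trace +
      e7 (r2 (T 1 : ℤ[T;T⁻¹]) (T (-1)) (toN b0)).trace := by
    intro i
    rw [F4_trace, toN_append, r1_append, r2_append, r1_B TT', r2_B TT', mul_one, mul_one, map_add,
      map_add, map_mul, map_mul]
    congr 3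
    rw [r3_append, ← e7_r3, ← e7_r3, ← Matrix.map_mul, AddMonoidHom.map_trace]
  have h1 := key i
  rw [h, key j] at h1
  have h2 : e7 (dl ^ 2 - 1) ≠ 0 := by
    unfold dl
    rw [map_sub, map_pow, map_sub, map_neg, map_pow, map_pow, map_one, e7_T1, e7_Tm1]
    norm_num
  have h3 : (q3 (toN b0) * q3 (toN (BN N i))).trace = (q3 (toN b0) * q3 (toN (BN N j))).trace := by
    have : e7 (dl ^ 2 - 1) * (q3 (toN b0) * q3 (toN (BN N i))).trace =
        e7 (dl ^ 2 - 1) * (q3 (toN b0) * q3 (toN (BN N j))).trace := by linarith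
    exact mul_left_cancel₀ h2 this
  obtain ⟨s, _, hs, _, hr⟩ := pr_B N hN i
  obtain ⟨s', _, hs', _, hr'⟩ := pr_B N hN j
  refine (res_b0.mul hr.fst).trace_ne (res_b0.mul hr'.fst) ?_ (trace_smul_ne s' hs') h3
  have := eB_mono N hij
  linarith

theorem B_inj (N : ℕ) (hN : 1 ≤ N) (k : ℕ) : Function.Injective
    (fun i : ℕ => (dia (braidClosure 4) (b0 ++ BN N (i + k))).fPoly) := by
  refine Function.Injective.of_lt_imp_ne fun i i' hi h => ?_
  rw [fPoly_eq _ (st_B N _).cost, fPoly_eq _ (st_B N _).cost] at h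
  refine trace_ne'' N hN (show i + k < i' + k by omega) ?_
  have hT : (T 9 : ℤ[T;T⁻¹]) * T (-9) = 1 := by rw [← T_add]; norm_num
  linear_combination (-T 9) * h - (F4 (zz (b0 ++ BN N (i + k))) - F4 (zz (b0 ++ BN N (i' + k)))) * hT

/-! ### the result -/

theorem main (n N k : ℕ) (hN : 1 ≤ N) :
    ∃ u : ℕ → List (Letter 4),
    (∀ i, IsPure (u i)) ∧
    (∀ i (G : Type) [Group G] (S : ℕ → Subgroup G), Series N n S →
      ∀ f : Letter 4 → G, (∀ j, f (false, j) = (f (true, j))⁻¹) → ((u i).map f).prod = 1) ∧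
    (∀ i (p : ℕ) (x y : Word), IsKnot (x ++ y) → p + 4 ≤ (run x Front.empty).n →
      IsKnot (x ++ sliced p (u i) ++ y) ∧ ∀ (A : Type) [AddCommGroup A] (z : Word → A),
        IsInvariant z → DegreeLE n z → z (x ++ sliced p (u i) ++ y) = z (x ++ y)) ∧
    (∀ i (O : Outer 4) (v w : List (Letter 4)),
      (30 * (1 - T (-4) ^ N) : ℤ[T;T⁻¹]) ^ k ∣
        (dia O (v ++ u i ++ w)).fPoly - (dia O (v ++ w)).fPoly) ∧
    (∀ i, IsKnot (slicedClosure (b0 ++ u i)) ∧ ∀ (A : Type) [AddCommGroup A] (z : Word → A),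
      IsInvariant z → DegreeLE n z → z (slicedClosure (b0 ++ u i)) = z circle) ∧
    (∀ i, (dia (braidClosure 4) (b0 ++ u i)).IsClosed ∧ (∀ x y, (permW (b0 ++ u i)).SameCycle x y) ∧
      (30 * (1 - T (-4) ^ N) : ℤ[T;T⁻¹]) ^ k ∣ (dia (braidClosure 4) (b0 ++ u i)).fPoly - 1) ∧
    Function.Injective (fun i => (dia (braidClosure 4) (b0 ++ u i)).fPoly) := by
  have h4 : ∀ j : ℕ, j ≤ 2 * 4 ^ j := fun j =>
    (Nat.lt_pow_self (by norm_num)).le.trans (Nat.le_mul_of_pos_left _ (by norm_num))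
  have hdvd : ∀ j : ℕ, k ≤ j → (30 * (1 - T (-4) ^ N) : ℤ[T;T⁻¹]) ^ k ∣ mN N ^ (2 * 4 ^ j) := by
    intro j hj
    refine (pow_dvd_pow_of_dvd ?_ k).trans (pow_dvd_pow _ (hj.trans (h4 j)))
    have h := (dvd_one_sub N N ⟨6, by ring⟩).trans (dvd_yx N)
    obtain ⟨q, hq⟩ := h
    refine ⟨q, ?_⟩
    unfold mN
    linear_combination 30 * hq
  have hmove : ∀ (i : ℕ) (O : Outer 4) (a b : List (Letter 4)),
      (30 * (1 - T (-4) ^ N) : ℤ[T;T⁻¹]) ^ k ∣
        (dia O (a ++ BN N (i + (n + k)) ++ b)).fPoly - (dia O (a ++ b)).fPoly := by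
    intro i O a b
    obtain ⟨G, hG⟩ := fPoly_move (by norm_num) (st_B N (i + (n + k))) O a b
    rw [hG, add_sub_cancel_left]
    exact Dvd.dvd.mul_right (hdvd _ (by omega)) _
  have hins : ∀ i (p : ℕ) (x y : Word), IsKnot (x ++ y) → p + 4 ≤ (run x Front.empty).n →
      IsKnot (x ++ sliced p (BN N (i + (n + k))) ++ y) ∧
        ∀ (A : Type) [AddCommGroup A] (z : Word → A), IsInvariant z → DegreeLE n z →
          z (x ++ sliced p (BN N (i + (n + k))) ++ y) = z (x ++ y) :=
    fun i p x y h hp => ins_B (by omega) h hp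
  refine ⟨fun i => BN N (i + (n + k)), fun i => permW_one _ (st_B N _).perm, ?_, hins, hmove, ?_,
    fun i => ⟨closed_all _, knot_b0 _ (st_B N _).perm, ?_⟩, B_inj N hN (n + k)⟩
  · intro i G _ S hS f hf
    have h5 := tv_B N (i + (n + k)) n (by omega) G n S hS le_rfl f hf
    rw [hS.bot, Subgroup.mem_bot] at h5
    exact h5
  · intro i
    have hk : IsKnot (([.birth 0 true, .birth 1 true, .birth 2 true, .birth 3 true] ++ sliced 0 b0) ++
        [.death 3, .death 2, .death 1, .death 0]) := isKnot_b0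
    have h5 := hins i 0 ([.birth 0 true, .birth 1 true, .birth 2 true, .birth 3 true] ++ sliced 0 b0)
      [.death 3, .death 2, .death 1, .death 0] hk (by decide)
    have e : ∀ w, slicedClosure (b0 ++ w) =
        ([.birth 0 true, .birth 1 true, .birth 2 true, .birth 3 true] ++ sliced 0 b0) ++
          sliced 0 w ++ [.death 3, .death 2, .death 1, .death 0] := by
      intro w
      unfold slicedClosure
      rw [sliced_append, List.append_assoc _ (sliced 0 b0) (sliced 0 w)]
    rw [e]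
    refine ⟨h5.1, fun A _ z hz1 hz2 => ?_⟩
    rw [h5.2 A z hz1 hz2]
    exact hz1 _ _ hk closure4_b0
  · have h := hmove i (braidClosure 4) b0 []
    rwa [List.append_nil, List.append_nil, fPoly_b0] at h

end Pool.Agent.H360.KV
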