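import Pool.Graph.R_pool_sql_team_seeded_620a6dc7.Helper52_KV.Ins

/-!
# Degrees of difference operators: products, powers, conjugates and commutators
-/

set_option autoImplicit false

namespace Pool.Agent.H360.KV

open Pool.Agent.H835R2 Pool.Agent.H835R2.Knot Pool.Agent.Y466.FT Pool.Agent.H835R2.Flat
  Pool.Agent.Helper52_KV

section
variable {M : Type*} [Monoid M] {A : Type*} [AddCommGroup A] {E R : Set (M × M)}

omit [AddCommGroup A] in
theorem Iv.trans {φ : M → A} (h : Iv R φ) (w : M) : Iv R (fun p => φ (w * p)) := by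
  intro r hr a b
  have h1 := h r hr (w * a) b
  simp only [mul_assoc] at h1 ⊢
  exact h1

theorem Dp.mono {i j : ℕ} (hij : i ≤ j) {w : M} (h : Dp A R E j w) : Dp A R E i w := by
  intro n φ h1 h2
  obtain ⟨m, rfl⟩ := Nat.exists_eq_add_of_le hij
  refine h n φ ?_ h2
  rw [← add_assoc]
  exact Dg.add_nat h1 m

theorem Dp.one (j : ℕ) : Dp A R E j (1 : M) := by
  intro n φ _ _
  refine (Dg.zero (E := E) (A := A) n).congr fun p => ?_
  simp [Tr]

theorem Dp.mul {j : ℕ} {u v : M} (hu : Dp A R E j u) (hv : Dp A R E j v) :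
    Dp A R E j (u * v) := by
  intro n φ h1 h2
  refine (((hu n φ h1 h2).trans v).add (hv n φ h1 h2)).congr fun p => ?_
  unfold Tr
  rw [mul_assoc]
  abel

theorem Dp.pow {j : ℕ} {u : M} (hu : Dp A R E j u) (m : ℕ) : Dp A R E j (u ^ m) := by
  induction m with
  | zero => rw [pow_zero]; exact Dp.one j
  | succ m ih => rw [pow_succ]; exact Dp.mul ih hu

theorem Dp.conj {j : ℕ} {u w w' : M} (hu : Dp A R E j u) (hw : Eqv R (w * w') 1) :
    Dp A R E j (w * u * w') := by
  intro n φ h1 h2
  have h3 := (hu n (fun p => φ (w * p)) (h1.trans w) (Iv.trans h2 w)).trans w'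
  refine h3.congr fun p => ?_
  have e1 := hw.iv h2 1 p
  simp only [one_mul, mul_one, mul_assoc] at e1
  unfold Tr
  simp only [mul_assoc]
  rw [e1]

theorem Dp.comm' {i j : ℕ} {x x' u u' : M} (hx : Dp A R E i x) (hu : Dp A R E j u)
    (hxx : Eqv R (x * x') 1) (huu : Eqv R (u * u') 1) : Dp A R E (i + j) (x * u * x' * u') := by
  intro n φ h1 h2
  have h3 : Dg E (n + j) (Tr x φ) := hx (n + j) φ (by
    rw [show n + j + i = n + (i + j) by ring]; exact h1) h2
  have h4 : Dg E n (Tr u (Tr x φ)) := hu n _ h3 (h2.tr x)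
  have h5 : Dg E (n + i) (Tr u φ) := hu (n + i) φ (by
    rw [show n + i + j = n + (i + j) by ring]; exact h1) h2
  have h6 : Dg E n (Tr x (Tr u φ)) := hx n _ h5 (h2.tr u)
  have h7 := (h4.sub h6).trans (x' * u')
  refine h7.congr fun p => ?_
  have e1 : φ (u * (x * (x' * u') * p)) = φ p := by
    have e2 := hxx.iv h2 u (u' * p)
    have e3 := huu.iv h2 1 p
    simp only [mul_assoc, one_mul, mul_one] at e2 e3 ⊢
    rw [e2, e3]
  unfold Tr
  have e4 : u * (x * (x' * u') * p) = u * (x * (x' * u' * p)) := by simp only [mul_assoc]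
  rw [e4] at e1
  rw [e1]
  have e5 : x * u * x' * u' * p = x * (u * (x' * u' * p)) := by simp only [mul_assoc]
  rw [e5]
  abel

end

/-! ### words -/

/-- the difference operator of the word, on any number of strands, lowers the degree by `j` -/
def DW (j : ℕ) (w : Braid) : Prop :=
  ∀ (A : Type) [AddCommGroup A] (m : Fin 1 → ℕ), (∀ l ∈ w, l.2 + 1 < m 0) →
    Dp A (RS m) (ES m) j (sg w)

theorem DW.of_pure {w : Braid} (h : IsPure w) : DW 1 w := fun _ _ _ hw => Dp.of_pu (pu hw h)

theorem DW.mono {i j : ℕ} (hij : i ≤ j) {w : Braid} (h : DW j w) : DW i w :=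
  fun A _ m hw => Dp.mono hij (h A m hw)

theorem DW.app {j : ℕ} {v w : Braid} (hv : DW j v) (hw : DW j w) : DW j (v ++ w) := by
  intro A _ m h
  rw [sg_append]
  exact Dp.mul (hv A m fun l hl => h l (List.mem_append_left _ hl))
    (hw A m fun l hl => h l (List.mem_append_right _ hl))

theorem DW.nil (j : ℕ) : DW j ([] : Braid) := by
  intro A _ m _
  have : Helper52_KV.sg ([] : Braid) = 1 := by unfold Helper52_KV.sg; simp
  rw [this]
  exact Dp.one j

theorem DW.pow {j : ℕ} {w : Braid} (h : DW j w) (n : ℕ) : DW j (List.replicate n w).flatten := by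
  induction n with
  | zero => exact DW.nil j
  | succ n ih =>
    rw [List.replicate_succ, List.flatten_cons]
    exact h.app ih

theorem DW.conj {j : ℕ} {v : Braid} (h : DW j v) (w : Braid) : DW j (w ++ v ++ inv w) := by
  intro A _ m hl
  rw [sg_append, sg_append]
  have h1 : ∀ l ∈ w, l.2 + 1 < m 0 := fun l h' => hl l (by simp [h'])
  exact Dp.conj (h A m fun l h' => hl l (by simp [h'])) (eqv_inv h1)

theorem DW.comm {i j : ℕ} {v w : Braid} (hv : DW i v) (hw : DW j w) :
    DW (i + j) (v ++ w ++ inv v ++ inv w) := by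
  intro A _ m hl
  rw [sg_append, sg_append, sg_append]
  have h1 : ∀ l ∈ v, l.2 + 1 < m 0 := fun l h' => hl l (by simp [h'])
  have h2 : ∀ l ∈ w, l.2 + 1 < m 0 := fun l h' => hl l (by simp [h'])
  exact Dp.comm' (hv A m h1) (hw A m h2) (eqv_inv h1) (eqv_inv h2)

theorem ins' {n : ℕ} {x y : Word} {U : Braid} (hU : DW (n + 1) U)
    (hl : ∀ l ∈ U, l.2 + 1 < (Knot.run x Front.empty).n) (h : IsKnot (x ++ y)) :
    IsKnot (x ++ draw U ++ y) ∧ ∀ (A : Type) [AddCommGroup A] (v : Word → A),
      IsInvariant v → DegreeLE n v → v (x ++ draw U ++ y) = v (x ++ y) := by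
  have hm : Y466.FT.wd x (fun _ : Fin 1 => y) 0 = (Knot.run x Front.empty).n := by
    rw [run_n]
    unfold Y466.FT.wd
    simp [Front.empty]
  have key : ∀ {A : Type} [AddCommGroup A] (v : Word → A), IsInvariant v → DegreeLE n v →
      ext v (x ++ draw U ++ y) = ext v (x ++ y) := by
    intro A _ v hv hn
    have h1 := dg_phi x (fun _ : Fin 1 => y) hn
    have h2 := iv_phi x (fun _ : Fin 1 => y) hv
    have h3 := hU A (Y466.FT.wd x (fun _ : Fin 1 => y)) (by rw [hm]; exact hl)
    have h4 := h3.eq le_rfl h1 h2 1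
    rw [mul_one] at h4
    unfold phi at h4
    rwa [plug_sg, plug_one] at h4
  have h1 : IsKnot (x ++ draw U ++ y) := by
    have h0 : DegreeLE n (fun _ : Word => (1 : ℤ)) := by
      have hd : DegreeLE 0 (fun _ : Word => (1 : ℤ)) := by
        intro D _ S _ hS
        obtain ⟨x, rfl⟩ := Finset.card_eq_one.1 (by simpa using hS)
        rw [show ({x} : Finset ℕ).powerset = {∅, {x}} from rfl]
        rw [Finset.sum_pair (by simp)]
        simp
      clear hU key
      induction n with
      | zero => exact hd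
      | succ n ih => exact DegreeLE.succ ih
    have h2 := key (fun _ : Word => (1 : ℤ)) (fun _ _ _ _ => rfl) h0
    by_contra hq
    unfold ext at h2
    rw [if_neg hq, if_pos h] at h2
    exact absurd h2 (by norm_num)
  refine ⟨h1, fun A _ v hv hn => ?_⟩
  have h2 := key v hv hn
  unfold ext at h2
  rwa [if_pos h1, if_pos h] at h2

/-! ### shifts -/

theorem shift_flatten (p n : ℕ) (w : Braid) :
    shift p (List.replicate n w).flatten = (List.replicate n (shift p w)).flatten := by
  simp [shift, List.map_flatten]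

end Pool.Agent.H360.KV
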