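import Pool.Agent.H360.JK.Main
import Pool.Agent.H360.KV.Vas
import Pool.Graph.R_pool_sql_team_seeded_620a6dc7.Helper52_KV.Main2

/-!
# Commutators of powers
-/

set_option autoImplicit false

namespace Pool.Agent.H360.KV

open Finset LaurentPolynomial Matrix Pool.Agent.H891R2.Jones Pool.Agent.W639.RB Pool.Agent.Y463.SK
  Pool.Agent.Y463.MP Pool.Agent.Helper52_CV Pool.Agent.H360.JK Pool.Agent.Helper52_KV

/-! ### matrices of rank one -/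

theorem one_mul_one (a φ b ψ : Fin 3 → ZMod 7) (C : M7) :
    vecMulVec a φ * C * vecMulVec b ψ = (φ ⬝ᵥ (C *ᵥ b)) • vecMulVec a ψ := by
  rw [vecMulVec_mul, vecMulVec_mul_vecMulVec, ← dotProduct_mulVec, vecMulVec_smul]

theorem one_pow_one (s : ZMod 7) (a φ : Fin 3 → ZMod 7) (n : ℕ) :
    (s • vecMulVec a φ) ^ (n + 1) = (s * (s * (φ ⬝ᵥ a)) ^ n) • vecMulVec a φ := by
  induction n with
  | zero => rw [zero_add, pow_one, pow_zero, mul_one]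
  | succ n ih =>
    rw [pow_succ, ih, smul_mul_smul_comm, vecMulVec_mul_vecMulVec, vecMulVec_smul, smul_smul]
    congr 1
    ring

theorem mat_fst (s s' : ZMod 7) (a φ a' φ' : Fin 3 → ZMod 7) (C C' : M7) :
    (s • vecMulVec a φ) * (C * (s • vecMulVec a φ) * C') * (s' • vecMulVec a' φ') *
      (C * (s' • vecMulVec a' φ') * C') =
    (s * s * s' * s' * ((φ ⬝ᵥ (C *ᵥ a)) * (φ ⬝ᵥ (C' *ᵥ a')) * (φ' ⬝ᵥ (C *ᵥ a')))) •
      vecMulVec a (φ' ᵥ* C') := by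
  have e : (s • vecMulVec a φ) * (C * (s • vecMulVec a φ) * C') * (s' • vecMulVec a' φ') *
      (C * (s' • vecMulVec a' φ') * C') = (s * s * s' * s') •
      (vecMulVec a φ * C * vecMulVec a φ * C' * vecMulVec a' φ' * C * vecMulVec a' φ' * C') := by
    simp only [smul_mul_assoc, mul_smul_comm, smul_smul, mul_assoc]
    congr 1
    ring
  rw [e, one_mul_one]
  simp only [smul_mul_assoc]
  rw [one_mul_one]
  simp only [smul_mul_assoc]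
  rw [one_mul_one]
  simp only [smul_mul_assoc, smul_smul]
  rw [vecMulVec_mul]
  congr 1
  ring

theorem mat_snd (s s' : ZMod 7) (a φ a' φ' : Fin 3 → ZMod 7) (C C' : M7) :
    (C * (s • vecMulVec a φ) * C') * (s • vecMulVec a φ) * (C * (s' • vecMulVec a' φ') * C') *
      (s' • vecMulVec a' φ') =
    (s * s * s' * s' * ((φ ⬝ᵥ (C' *ᵥ a)) * (φ ⬝ᵥ (C *ᵥ a')) * (φ' ⬝ᵥ (C' *ᵥ a')))) •
      vecMulVec (C *ᵥ a) φ' := by
  have e : (C * (s • vecMulVec a φ) * C') * (s • vecMulVec a φ) *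
      (C * (s' • vecMulVec a' φ') * C') * (s' • vecMulVec a' φ') = (s * s * s' * s') •
      (C * (vecMulVec a φ * C' * vecMulVec a φ * C * vecMulVec a' φ' * C' * vecMulVec a' φ')) := by
    simp only [smul_mul_assoc, mul_smul_comm, smul_smul, mul_assoc]
    congr 1
    ring
  rw [e, one_mul_one]
  simp only [smul_mul_assoc]
  rw [one_mul_one]
  simp only [smul_mul_assoc]
  rw [one_mul_one]
  simp only [mul_smul_comm, smul_smul]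
  rw [mul_vecMulVec]
  congr 1
  ring

/-- the residues of the word and its inverse are of rank one, up to non-zero factors -/
def PR (e : ℤ) (a φ a' φ' : Fin 3 → ZMod 7) (w : List (Bool × ℕ)) : Prop :=
  ∃ s s' : ZMod 7, s ≠ 0 ∧ s' ≠ 0 ∧ RR e e (s • vecMulVec a φ) (s' • vecMulVec a' φ') w

theorem invL_flatten (n : ℕ) (w : List (Bool × ℕ)) :
    invL (List.replicate n w).flatten = (List.replicate n (invL w)).flatten := by
  simp [invL, List.reverse_flatten, List.map_flatten]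

instance : Fact (Nat.Prime 7) := ⟨by norm_num⟩

theorem PR.pow {e : ℤ} {a φ a' φ' : Fin 3 → ZMod 7} {w : List (Bool × ℕ)}
    (h : PR e a φ a' φ' w) (h1 : φ ⬝ᵥ a ≠ 0) (h2 : φ' ⬝ᵥ a' ≠ 0) {P : ℕ} (hP : 1 ≤ P) :
    PR (P * e) a φ a' φ' (List.replicate P w).flatten := by
  obtain ⟨s, s', hs, hs', hr⟩ := h
  obtain ⟨n, rfl⟩ : ∃ n, P = n + 1 := ⟨P - 1, by omega⟩
  refine ⟨s * (s * (φ ⬝ᵥ a)) ^ n, s' * (s' * (φ' ⬝ᵥ a')) ^ n,
    mul_ne_zero hs (pow_ne_zero _ (mul_ne_zero hs h1)),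
    mul_ne_zero hs' (pow_ne_zero _ (mul_ne_zero hs' h2)), ?_, ?_⟩
  · refine (hr.fst.pow (n + 1)).cg rfl (one_pow_one _ _ _ _) (q3_flat _ _).symm
  · refine (hr.snd.pow (n + 1)).cg rfl (one_pow_one _ _ _ _) ?_
    rw [invL_flatten, q3_flat]

/-- the conditions for the step with conjugation by a word with residues `C`, `C'` -/
def Cond (a φ a' φ' : Fin 3 → ZMod 7) (C C' : M7) : Prop :=
  φ ⬝ᵥ (C *ᵥ a) ≠ 0 ∧ φ ⬝ᵥ (C' *ᵥ a') ≠ 0 ∧ φ' ⬝ᵥ (C *ᵥ a') ≠ 0 ∧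
    φ ⬝ᵥ (C' *ᵥ a) ≠ 0 ∧ φ ⬝ᵥ (C *ᵥ a') ≠ 0 ∧ φ' ⬝ᵥ (C' *ᵥ a') ≠ 0

theorem PR.step {e d d' : ℤ} {a φ a' φ' : Fin 3 → ZMod 7} {C C' : M7} {v w : List (Bool × ℕ)}
    (h : PR e a φ a' φ' v) (hw : RR d d' C C' w) (hc : Cond a φ a' φ' C C') :
    PR (4 * e + 2 * (d + d')) a (φ' ᵥ* C') (C *ᵥ a) φ' (cmL v (w ++ v ++ invL w)) := by
  obtain ⟨s, s', hs, hs', hr⟩ := h
  obtain ⟨h1, h2, h3, h4, h5, h6⟩ := hc
  refine ⟨s * s * s' * s' * ((φ ⬝ᵥ (C *ᵥ a)) * (φ ⬝ᵥ (C' *ᵥ a')) * (φ' ⬝ᵥ (C *ᵥ a'))),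
    s * s * s' * s' * ((φ ⬝ᵥ (C' *ᵥ a)) * (φ ⬝ᵥ (C *ᵥ a')) * (φ' ⬝ᵥ (C' *ᵥ a'))),
    mul_ne_zero (mul_ne_zero (mul_ne_zero (mul_ne_zero hs hs) hs') hs')
      (mul_ne_zero (mul_ne_zero h1 h2) h3),
    mul_ne_zero (mul_ne_zero (mul_ne_zero (mul_ne_zero hs hs) hs') hs')
      (mul_ne_zero (mul_ne_zero h4 h5) h6), ?_⟩
  refine (hr.cm (hr.conj hw)).cg (by ring) (by ring) ?_ ?_ rfl
  · exact mat_fst _ _ _ _ _ _ _ _
  · exact mat_snd _ _ _ _ _ _ _ _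

end Pool.Agent.H360.KV
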